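import Pool.Agent.T2h14.FD.Stm

/-!
Project FD (helper14), tasks SMO and DER: extension of homomorphisms of fields of characteristic `p`.

A partial homomorphism from the field `k` to the ring `S` is a subring `G` of `k × S` in which `0` is the
only element over `0`.
-/

set_option autoImplicit false

namespace Pool.Agent.T2h25.FD

open Polynomial

section
variable {k S : Type*} [Field k] [CommRing S] (p : ℕ)

/-- no nonzero element over zero -/
def Inj (G : Subring (k × S)) : Prop := ∀ s : S, ((0 : k), s) ∈ G → s = 0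

variable [Fact p.Prime]

/-- the subfield of the first components -/
def fld (G : Subring (k × S)) (h : ∀ a : k, ∃ s, (a ^ p, s) ∈ G) : Subfield k where
  toSubring := G.map (RingHom.fst k S)
  inv_mem' := by
    intro x hx
    change x⁻¹ ∈ G.map (RingHom.fst k S)
    have hx' : x ∈ G.map (RingHom.fst k S) := hx
    rcases eq_or_ne x 0 with rfl | h0
    · rw [inv_zero]
      exact zero_mem _
    obtain ⟨s, hs⟩ := h x⁻¹
    have h1 : (x⁻¹) ^ p ∈ G.map (RingHom.fst k S) := ⟨_, hs, rfl⟩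
    have h2 := mul_mem h1 (pow_mem hx' (p - 1))
    have hp : p = (p - 1) + 1 := (Nat.succ_pred_prime Fact.out).symm
    have h3 : (x⁻¹) ^ p * x ^ (p - 1) = x⁻¹ := by
      conv_lhs => rw [hp]
      rw [Nat.add_sub_cancel, pow_succ', mul_assoc, ← mul_pow, inv_mul_cancel₀ h0, one_pow, mul_one]
    rwa [h3] at h2

variable [CharP k p]

/-- one more element -/
lemma step (G : Subring (k × S)) (hG : Inj G) (hp : ∀ a : k, ∃ s, (a ^ p, s) ∈ G) (β : k × S)
    (hβ : β ^ p ∈ G) (hb : ∀ s, (β.1, s) ∉ G) : Inj (Algebra.adjoin G {β}).toSubring := by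
  intro s hs
  have hpp : p.Prime := Fact.out
  have hs' : ((0 : k), s) ∈ Algebra.adjoin G {β} := hs
  rw [Algebra.adjoin_singleton_eq_range_aeval] at hs'
  obtain ⟨f, hf⟩ := hs'
  have hf' : aeval β f = ((0 : k), s) := hf
  set γ : G := ⟨β ^ p, hβ⟩ with hγ
  set q : G[X] := X ^ p - C γ with hq
  have hqm : q.Monic := monic_X_pow_sub_C γ hpp.ne_zero
  have hq0 : aeval β q = 0 := by
    rw [hq, map_sub, map_pow, aeval_X, aeval_C]
    exact sub_self _
  set r := f %ₘ q with hr
  have hrf : aeval β r = ((0 : k), s) := by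
    have h1 := congrArg (aeval β) (modByMonic_add_div f q)
    rw [map_add, map_mul, hq0, zero_mul, add_zero, hf'] at h1
    exact h1
  have hnt : Nontrivial G := by
    refine ⟨⟨0, 1, fun h => ?_⟩⟩
    have h1 : ((0 : G) : k × S).1 = ((1 : G) : k × S).1 := by rw [h]
    exact zero_ne_one h1
  have hdeg : r.degree < p := by
    have h1 := degree_modByMonic_lt f hqm
    rwa [hq, degree_X_pow_sub_C hpp.pos γ] at h1
  -- the image in the field
  let φ : G →+* fld p G hp :=
    { toFun := fun g => ⟨g.1.1, ⟨g.1, g.2, rfl⟩⟩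
      map_one' := rfl
      map_zero' := rfl
      map_add' := fun _ _ => rfl
      map_mul' := fun _ _ => rfl }
  have h0 : aeval β.1 (r.map φ) = 0 := by
    have h1 : (RingHom.fst k S) (eval₂ (algebraMap G (k × S)) β r) = 0 := by
      have h2 : eval₂ (algebraMap G (k × S)) β r = ((0 : k), s) := hrf
      rw [h2]
      rfl
    rw [hom_eval₂] at h1
    rw [aeval_def, eval₂_map]
    exact h1
  have hir : Irreducible (X ^ p - C (φ γ) : (fld p G hp)[X]) := by
    refine X_pow_sub_C_irreducible_of_prime hpp fun z hz => ?_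
    have h1 : (z : k) ^ p = β.1 ^ p := by
      have := congrArg (fun t : fld p G hp => (t : k)) hz
      exact this
    have h2 : (z : k) = β.1 := frobenius_inj k p h1
    obtain ⟨g, hg, hg2⟩ := z.2
    refine hb g.2 ?_
    rw [← h2, ← hg2]
    exact hg
  have hmon : (X ^ p - C (φ γ) : (fld p G hp)[X]).Monic := monic_X_pow_sub_C _ hpp.ne_zero
  have hroot : aeval β.1 (X ^ p - C (φ γ) : (fld p G hp)[X]) = 0 := by
    rw [map_sub, map_pow, aeval_X, aeval_C]
    exact sub_self _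
  have hmin : X ^ p - C (φ γ) = minpoly (fld p G hp) β.1 :=
    minpoly.eq_of_irreducible_of_monic hir hroot hmon
  have hr0 : r.map φ = 0 := by
    by_contra hne
    have h1 := minpoly.degree_le_of_ne_zero (fld p G hp) β.1 hne h0
    rw [← hmin, degree_X_pow_sub_C hpp.pos] at h1
    exact absurd (h1.trans (degree_map_le (f := φ) (p := r))) (not_le.2 hdeg)
  have hr1 : r = 0 := by
    ext1 i
    have h1 := congrArg (fun t => coeff t i) hr0
    simp only [coeff_map, coeff_zero] at h1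
    have h2 : (r.coeff i : k × S).1 = 0 := congrArg (fun t : fld p G hp => (t : k)) h1
    have h3 : (r.coeff i : k × S).2 = 0 := by
      refine hG _ ?_
      rw [← h2]
      exact (r.coeff i).2
    rw [coeff_zero]
    exact Subtype.ext (Prod.ext h2 h3)
  rw [hr1, map_zero] at hrf
  exact (congrArg Prod.snd hrf).symm

/-- Zorn's lemma -/
lemma exists_max (T : Subring (k × S)) (hT : ∀ a : k, ∃ s, (a, s) ∈ T) (G0 : Subring (k × S))
    (h0 : G0 ≤ T) (hG0 : Inj G0) (hpw : ∀ z ∈ T, z ^ p ∈ G0) :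
    ∃ G : Subring (k × S), G0 ≤ G ∧ G ≤ T ∧ Inj G ∧ ∀ a : k, ∃ s, (a, s) ∈ G := by
  obtain ⟨G, hGle, hG⟩ := zorn_le_nonempty₀ {G : Subring (k × S) | G ≤ T ∧ Inj G ∧ G0 ≤ G} (by
    intro c hc hch y hy
    have hne : c.Nonempty := ⟨y, hy⟩
    have hdir : DirectedOn (· ≤ ·) c := hch.directedOn
    refine ⟨sSup c, ⟨sSup_le fun G hG => (hc hG).1, ?_, (hc hy).2.2.trans (le_sSup hy)⟩,
      fun z hz => le_sSup hz⟩
    intro s hs
    rw [Subring.mem_sSup_of_directedOn hne hdir] at hs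
    obtain ⟨G, hG, hs⟩ := hs
    exact (hc hG).2.1 s hs) G0 ⟨h0, hG0, le_rfl⟩
  obtain ⟨hG1, hG2, hG3⟩ := hG.prop
  refine ⟨G, hG3, hG1, hG2, fun a => ?_⟩
  by_contra hcon
  have hcon' : ∀ s, (a, s) ∉ G := fun s hs => hcon ⟨s, hs⟩
  obtain ⟨s, hs⟩ := hT a
  have hp : ∀ a : k, ∃ s, (a ^ p, s) ∈ G := by
    intro a
    obtain ⟨s, hs⟩ := hT a
    exact ⟨s ^ p, hG3 (hpw _ hs)⟩
  have h1 := step p G hG2 hp (a, s) (hG3 (hpw _ hs)) hcon'
  have h2 : G ≤ (Algebra.adjoin G {(a, s)}).toSubring := by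
    intro x hx
    exact Subalgebra.algebraMap_mem (Algebra.adjoin G {(a, s)}) (⟨x, hx⟩ : G)
  have h3 : (a, s) ∈ (Algebra.adjoin G {(a, s)}).toSubring :=
    Algebra.subset_adjoin (Set.mem_singleton _)
  have h4 : (Algebra.adjoin G {(a, s)}).toSubring ≤ T := by
    intro x hx
    have hx' : x ∈ Algebra.adjoin G {(a, s)} := hx
    rw [Algebra.adjoin_singleton_eq_range_aeval] at hx'
    obtain ⟨f, hf⟩ := hx'
    have hf' : aeval (a, s) f = x := hf
    rw [← hf', aeval_eq_sum_range]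
    refine sum_mem fun i _ => ?_
    rw [Subring.smul_def, smul_eq_mul]
    exact mul_mem (hG1 (f.coeff i).2) (pow_mem hs i)
  have h5 := hG.le_of_ge ⟨h4, h1, hG3.trans h2⟩ h2
  exact hcon' s (h5 h3)

/-- extension of a partial homomorphism -/
theorem lift (T : Subring (k × S)) (hT : ∀ a : k, ∃ s, (a, s) ∈ T) (G0 : Subring (k × S))
    (h0 : G0 ≤ T) (hG0 : Inj G0) (hpw : ∀ z ∈ T, z ^ p ∈ G0) :
    ∃ ψ : k →+* S, (∀ a, (a, ψ a) ∈ T) ∧ ∀ z ∈ G0, ψ z.1 = z.2 := by
  obtain ⟨G, hG1, hG2, hG3, hG4⟩ := exists_max p T hT G0 h0 hG0 hpw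
  let π : G →+* k := (RingHom.fst k S).comp G.subtype
  have hinj : Function.Injective π := by
    rw [injective_iff_map_eq_zero]
    intro g hg
    have h1 : (g : k × S).1 = 0 := hg
    have h2 : (g : k × S).2 = 0 := by
      refine hG3 _ ?_
      rw [← h1]
      exact g.2
    exact Subtype.ext (Prod.ext h1 h2)
  have hsur : Function.Surjective π := by
    intro a
    obtain ⟨s, hs⟩ := hG4 a
    exact ⟨⟨_, hs⟩, rfl⟩
  let e : G ≃+* k := RingEquiv.ofBijective π ⟨hinj, hsur⟩
  refine ⟨((RingHom.snd k S).comp G.subtype).comp (e.symm : k →+* G), fun a => ?_, fun z hz => ?_⟩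
  · have h1 : π (e.symm a) = a := e.apply_symm_apply a
    have h2 : (a, ((RingHom.snd k S).comp G.subtype).comp (e.symm : k →+* G) a) =
        ((e.symm a : G) : k × S) := Prod.ext h1.symm rfl
    rw [h2]
    exact hG2 (e.symm a).2
  · have h1 : e.symm z.1 = ⟨z, hG1 hz⟩ := by
      rw [RingEquiv.symm_apply_eq]
      rfl
    show (RingHom.snd k S) (G.subtype (e.symm z.1)) = z.2
    rw [h1]
    rfl

end

open Pool.Agent.T2h14.FD

theorem t_SMO : SMO := by
  intro p _ k _ _
  have hck : CharP k p := charP_of_injective_algebraMap (algebraMap (ZMod p) k).injective p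
  have hpp : p.Prime := Fact.out
  refine Algebra.FormallySmooth.of_comp_surjective fun B _ _ J hJ φ => ?_
  have hcp : CharP (k × B) p :=
    charP_of_injective_algebraMap (algebraMap (ZMod p) (k × B)).injective p
  let T : Subring (k × B) := RingHom.eqLocus ((φ : k →+* B ⧸ J).comp (RingHom.fst k B))
    ((Ideal.Quotient.mk J).comp (RingHom.snd k B))
  have hT : ∀ z : k × B, z ∈ T ↔ φ z.1 = Ideal.Quotient.mk J z.2 := fun z => Iff.rfl
  obtain ⟨ψ, h1, -⟩ := lift p T (fun a => by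
      obtain ⟨s, hs⟩ := Ideal.Quotient.mk_surjective (φ a)
      exact ⟨s, (hT _).2 hs.symm⟩) (T.map (frobenius (k × B) p)) (by
      rintro _ ⟨z, hz, rfl⟩
      exact pow_mem hz p) (by
      rintro s ⟨z, hz, hzs⟩
      have h2 : z.1 ^ p = 0 := congrArg Prod.fst hzs
      have h3 : z.2 ^ p = s := congrArg Prod.snd hzs
      have h4 : z.1 = 0 := pow_eq_zero_iff hpp.ne_zero |>.1 h2
      have h5 := (hT z).1 hz
      rw [h4, map_zero] at h5
      have h6 : z.2 ∈ J := Ideal.Quotient.eq_zero_iff_mem.1 h5.symm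
      have h7 : z.2 ^ 2 ∈ J ^ 2 := Ideal.pow_mem_pow h6 2
      rw [hJ] at h7
      have h8 : z.2 ^ 2 = 0 := h7
      rw [← h3, ← Nat.sub_add_cancel hpp.two_le, pow_add, h8, mul_zero]) (by
      intro z hz
      exact ⟨z, hz, rfl⟩)
  refine ⟨{ ψ with commutes' := fun c => ?_ }, ?_⟩
  · exact RingHom.congr_fun (Subsingleton.elim (ψ.comp (algebraMap (ZMod p) k))
      (algebraMap (ZMod p) B)) c
  · ext a
    exact ((hT _).1 (h1 a)).symm

theorem t_DER : DER := by
  intro p _ k _ _ L hL c hc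
  have hpp : p.Prime := Fact.out
  have hcp : CharP (k × DualNumber k) p := by
    have : Algebra (ZMod p) k := ZMod.algebra k p
    exact charP_of_injective_algebraMap (algebraMap (ZMod p) (k × DualNumber k)).injective p
  let T : Subring (k × DualNumber k) := RingHom.eqLocus (RingHom.fst k (DualNumber k))
    ((TrivSqZeroExt.fstHom k k k : DualNumber k →+* k).comp (RingHom.snd k (DualNumber k)))
  have hT : ∀ z : k × DualNumber k, z ∈ T ↔ z.1 = z.2.fst := fun z => Iff.rfl
  let G1 : Subring (k × DualNumber k) :=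
    L.toSubring.map ((RingHom.id k).prod (TrivSqZeroExt.inlHom k k))
  have hG1 : ∀ x ∈ L, (x, (TrivSqZeroExt.inl x : DualNumber k)) ∈ G1 := fun x hx => ⟨x, hx, rfl⟩
  have hG1' : ∀ z ∈ G1, z.1 ∈ L ∧ z.2 = TrivSqZeroExt.inl z.1 := by
    rintro _ ⟨x, hx, rfl⟩
    exact ⟨hx, rfl⟩
  have hpow : ∀ z ∈ T, z ^ p ∈ G1 := by
    intro z hz
    have h1 : z ^ p = (z.1 ^ p, (TrivSqZeroExt.inl (z.1 ^ p) : DualNumber k)) := by
      refine Prod.ext rfl ?_
      show z.2 ^ p = _
      have h2 := (hT z).1 hz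
      ext
      · rw [TrivSqZeroExt.fst_pow, TrivSqZeroExt.fst_inl, h2]
      · rw [TrivSqZeroExt.snd_pow, TrivSqZeroExt.snd_inl]
        rw [← Nat.cast_smul_eq_nsmul k, CharP.cast_eq_zero, zero_smul]
    rw [h1]
    exact hG1 _ (hL _)
  have hinj1 : Inj G1 := by
    intro s hs
    have h1 : s = TrivSqZeroExt.inl (0 : k) := (hG1' _ hs).2
    rw [h1]
    rfl
  have hp1 : ∀ a : k, ∃ s, (a ^ p, s) ∈ G1 := fun a => ⟨_, hG1 _ (hL a)⟩
  set β : k × DualNumber k := (c, TrivSqZeroExt.inl c + TrivSqZeroExt.inr 1) with hβ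
  have hβT : β ∈ T := by
    rw [hT]
    simp [hβ]
  have h2 := step p G1 hinj1 hp1 β (hpow _ hβT) fun s hs => hc (hG1' _ hs).1
  have hG1T : G1 ≤ T := by
    intro z hz
    rw [hT, (hG1' z hz).2]
    rfl
  have hle : G1 ≤ (Algebra.adjoin G1 {β}).toSubring := by
    intro x hx
    exact Subalgebra.algebraMap_mem (Algebra.adjoin G1 {β}) (⟨x, hx⟩ : G1)
  obtain ⟨ψ, h3, h4⟩ := lift p T (fun a => ⟨TrivSqZeroExt.inl a, (hT _).2 rfl⟩)
    (Algebra.adjoin G1 {β}).toSubring (by
      intro x hx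
      have hx' : x ∈ Algebra.adjoin G1 {β} := hx
      rw [Algebra.adjoin_singleton_eq_range_aeval] at hx'
      obtain ⟨f, hf⟩ := hx'
      have hf' : aeval β f = x := hf
      rw [← hf', aeval_eq_sum_range]
      refine sum_mem fun i _ => ?_
      rw [Subring.smul_def, smul_eq_mul]
      exact mul_mem (hG1T (f.coeff i).2) (pow_mem hβT i)) h2 (fun z hz => hle (hpow z hz))
  have h5 : ∀ a, (ψ a).fst = a := fun a => ((hT _).1 (h3 a)).symm
  let d : k →+ k :=
    { toFun := fun a => (ψ a).snd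
      map_zero' := by rw [map_zero]; rfl
      map_add' := fun a b => by rw [map_add]; rfl }
  refine ⟨Derivation.mk' d.toIntLinearMap fun a b => ?_, fun x hx => ?_, ?_⟩
  · show (ψ (a * b)).snd = a * (ψ b).snd + b * (ψ a).snd
    rw [map_mul, TrivSqZeroExt.snd_mul, h5, h5]
    simp only [smul_eq_mul, MulOpposite.smul_eq_mul_unop, MulOpposite.unop_op]
    rw [mul_comm b]
  · show (ψ x).snd = 0
    rw [h4 _ (hle (hG1 x hx))]
    rfl
  · show (ψ c).snd ≠ 0
    have h6 := h4 β (Algebra.subset_adjoin (Set.mem_singleton _))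
    have h7 : ψ c = TrivSqZeroExt.inl c + TrivSqZeroExt.inr 1 := h6
    rw [h7]
    simp

end Pool.Agent.T2h25.FD
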