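import Pool.Agent.T2h14.FD.Stm

/-!
Project FD (helper14), task PRE: presentation of a complete local ring.
-/

set_option autoImplicit false

open MvPowerSeries IsLocalRing

namespace Pool.Agent.T2h25.FD

open Pool.Agent.T2h14.FD

lemma ord_one {n : ℕ} {k : Type} [Field k] {f : Rn n k} (h : constantCoeff f = 0) :
    OrdGe 1 f := by
  intro α hα
  have h1 : α = 0 := by
    rw [← Finsupp.degree_eq_zero_iff]
    omega
  rw [h1, coeff_zero_eq_constantCoeff_apply, h]

lemma mem_max (hP : POW) {n : ℕ} {k : Type} [Field k] {f : Rn n k} (h : constantCoeff f = 0) :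
    f ∈ maximalIdeal (Rn n k) := by
  have h1 := (hP k n 1 f).2 (ord_one h)
  rwa [pow_one] at h1

lemma max_eq (hP : POW) (hU : UNIQ) (k : Type) [Field k] (n : ℕ) :
    maximalIdeal (Rn n k) = Ideal.span (Set.range fun i : Fin n => (X i : Rn n k)) := by
  refine le_antisymm ?_ ?_
  · intro f hf
    have h1 : OrdGe 1 f := (hP k n 1 f).1 (by rwa [pow_one])
    have h2 := (hU k (Rn n k) (Ideal.span (Set.range fun i : Fin n => (X i : Rn n k))) n
      (RingHom.id _) (fun i => Ideal.subset_span ⟨i, rfl⟩)).1 1 f h1
    rwa [pow_one] at h2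
  · rw [Ideal.span_le]
    rintro _ ⟨i, rfl⟩
    exact mem_max hP (constantCoeff_X i)

theorem t_PRE (hCN : CN) (hSMO : SMO) (hEV : EVAL) (hSU : SUR) (hP : POW) (hU : UNIQ) : PRE := by
  intro p _ A _ _ _ _ _
  let iA : Algebra (ZMod p) A := ZMod.algebra A p
  have hck : CharP (ResidueField A) p :=
    charP_of_injective_algebraMap (algebraMap (ZMod p) (ResidueField A)).injective p
  have hsm : Algebra.FormallySmooth (ZMod p) (ResidueField A) := hSMO p (ResidueField A)
  -- the section
  obtain ⟨σ, hσ⟩ := Algebra.FormallySmooth.exists_mkₐ_comp_eq_of_isAdicComplete (R := ZMod p)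
    (A := ResidueField A) (S := A) (I := maximalIdeal A) (AlgHom.id (ZMod p) (ResidueField A))
  have hσ' : ∀ c, residue A (σ c) = c := fun c => AlgHom.congr_fun hσ c
  -- generators of the maximal ideal
  obtain ⟨n, a, ha⟩ := Submodule.fg_iff_exists_fin_generating_family.1
    (IsNoetherian.noetherian (maximalIdeal A))
  have ha' : Ideal.span (Set.range a) = maximalIdeal A := ha
  obtain ⟨E1, hE1, hE2, hE3⟩ := hEV (ResidueField A) A (maximalIdeal A) n (σ : ResidueField A →+* A) a
    (fun i => by rw [← ha']; exact Ideal.subset_span ⟨i, rfl⟩)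
  have hE1s : Function.Surjective E1 := by
    refine hSU (ResidueField A) A (maximalIdeal A) n E1 ?_ fun b => ⟨C (residue A b), ?_⟩
    · rw [← ha']
      congr 2
      funext i
      exact (hE2 i).symm
    · rw [hE1, ← residue_eq_zero_iff, map_sub]
      exact sub_eq_zero.2 (hσ' _).symm
  -- the kernel
  obtain ⟨r, f, hf⟩ := Submodule.fg_iff_exists_fin_generating_family.1
    (IsNoetherian.noetherian (RingHom.ker E1))
  have hf' : Ideal.span (Set.range f) = RingHom.ker E1 := hf
  obtain ⟨θ, L, g, hL, hgL, hθ⟩ := hCN p (ResidueField A) n r f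
  let E2 : Rn n (ResidueField A) →+* A := E1.comp (θ : Rn n (ResidueField A) →+* Rn n (ResidueField A))
  have hE2s : Function.Surjective E2 := hE1s.comp θ.surjective
  have hker2 : ∀ x, E2 x = 0 ↔ x ∈ Ideal.span (Set.range g) := by
    intro x
    have h1 : E2 x = 0 ↔ θ x ∈ RingHom.ker E1 := Iff.rfl
    have h2 : Set.range f = (θ : Rn n (ResidueField A) →+* Rn n (ResidueField A)) '' Set.range g := by
      rw [← Set.range_comp]
      congr 1
      funext j
      exact (hθ j).symm
    rw [h1, ← hf', h2, ← Ideal.map_span]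
    constructor
    · intro h
      have h3 : x ∈ Ideal.comap (θ : Rn n (ResidueField A) →+* Rn n (ResidueField A))
          (Ideal.map (θ : Rn n (ResidueField A) →+* Rn n (ResidueField A))
            (Ideal.span (Set.range g))) := Ideal.mem_comap.2 h
      rwa [Ideal.comap_map_of_bijective (θ : Rn n (ResidueField A) →+* Rn n (ResidueField A))
        θ.bijective] at h3
    · intro h
      exact Ideal.mem_map_of_mem _ h
  -- the maximal ideal
  have hloc : ∀ x : Rn n (ResidueField A), constantCoeff x = 0 → E2 x ∈ maximalIdeal A := by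
    intro x hx
    have h1 : x ∈ maximalIdeal (Rn n (ResidueField A)) := mem_max hP hx
    rw [mem_maximalIdeal, mem_nonunits_iff] at h1 ⊢
    intro h2
    have h3 : ¬ IsUnit (θ x) := fun h => h1 ((MulEquiv.isUnit_map θ).1 h)
    have h4 : θ x ∈ maximalIdeal (Rn n (ResidueField A)) := h3
    rw [max_eq hP hU] at h4
    have h5 : E1 (θ x) ∈ Ideal.map E1 (Ideal.span (Set.range fun i : Fin n =>
        (X i : Rn n (ResidueField A)))) := Ideal.mem_map_of_mem _ h4
    rw [Ideal.map_span, ← Set.range_comp] at h5
    have h6 : (E1 ∘ fun i : Fin n => (X i : Rn n (ResidueField A))) = a := by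
      funext i
      exact hE2 i
    rw [h6, ha'] at h5
    exact h5 h2
  have hmax2 : maximalIdeal A = Ideal.span (Set.range fun i => E2 (X i)) := by
    refine le_antisymm ?_ ?_
    · intro b hb
      obtain ⟨x, rfl⟩ := hE2s b
      have h1 : x ∈ maximalIdeal (Rn n (ResidueField A)) := by
        rw [mem_maximalIdeal, mem_nonunits_iff]
        intro h
        exact hb (h.map E2)
      rw [max_eq hP hU] at h1
      have h5 : E2 x ∈ Ideal.map E2 (Ideal.span (Set.range fun i : Fin n =>
          (X i : Rn n (ResidueField A)))) := Ideal.mem_map_of_mem _ h1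
      rw [Ideal.map_span, ← Set.range_comp] at h5
      exact h5
    · rw [Ideal.span_le]
      rintro _ ⟨i, rfl⟩
      exact hloc _ (constantCoeff_X i)
  -- the automorphism of the residue field
  let ρ : ResidueField A →+* ResidueField A := ((residue A).comp E2).comp C
  have hρ : Function.Bijective ρ := by
    refine ⟨ρ.injective, fun c => ?_⟩
    obtain ⟨b, rfl⟩ := residue_surjective c
    obtain ⟨x, rfl⟩ := hE2s b
    refine ⟨constantCoeff x, ?_⟩
    show residue A (E2 (C (constantCoeff x))) = _
    rw [← sub_eq_zero, ← map_sub, residue_eq_zero_iff, ← map_sub]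
    refine hloc _ ?_
    rw [map_sub, constantCoeff_C, sub_self]
  let e : ResidueField A ≃+* ResidueField A := RingEquiv.ofBijective ρ hρ
  have he : ∀ c, e c = residue A (E2 (C c)) := fun c => rfl
  have hmm : ∀ x : Rn n (ResidueField A), MvPowerSeries.map (e.symm : ResidueField A →+* ResidueField A)
      (MvPowerSeries.map (e : ResidueField A →+* ResidueField A) x) = x := by
    intro x
    ext α
    rw [coeff_map, coeff_map]
    exact e.symm_apply_apply _
  have hmm' : ∀ x : Rn n (ResidueField A), MvPowerSeries.map (e : ResidueField A →+* ResidueField A)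
      (MvPowerSeries.map (e.symm : ResidueField A →+* ResidueField A) x) = x := by
    intro x
    ext α
    rw [coeff_map, coeff_map]
    exact e.apply_symm_apply _
  refine ⟨n, r, E2.comp (MvPowerSeries.map (e.symm : ResidueField A →+* ResidueField A)),
    L.map (e : ResidueField A →+* ResidueField A), fun j => MvPowerSeries.map
      (e : ResidueField A →+* ResidueField A) (g j), ?_, ?_, ?_, ?_, ?_, ?_⟩
  · intro b
    obtain ⟨x, rfl⟩ := hE2s b
    refine ⟨MvPowerSeries.map (e : ResidueField A →+* ResidueField A) x, ?_⟩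
    show E2 _ = _
    rw [hmm]
  · intro c
    show residue A (E2 (MvPowerSeries.map (e.symm : ResidueField A →+* ResidueField A) (C c))) = c
    rw [map_C, ← he]
    exact e.apply_symm_apply c
  · rw [hmax2]
    congr 2
    funext i
    show _ = E2 (MvPowerSeries.map (e.symm : ResidueField A →+* ResidueField A) (X i))
    rw [map_X]
  · ext x
    have h1 : x ∈ RingHom.ker (E2.comp (MvPowerSeries.map
        (e.symm : ResidueField A →+* ResidueField A))) ↔
        E2 (MvPowerSeries.map (e.symm : ResidueField A →+* ResidueField A) x) = 0 := Iff.rfl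
    rw [h1, hker2]
    constructor
    · intro h
      have h2 := Ideal.mem_map_of_mem (MvPowerSeries.map (e : ResidueField A →+* ResidueField A)) h
      rw [hmm', Ideal.map_span, ← Set.range_comp] at h2
      exact h2
    · intro h
      have h2 := Ideal.mem_map_of_mem
        (MvPowerSeries.map (e.symm : ResidueField A →+* ResidueField A)) h
      rw [Ideal.map_span, ← Set.range_comp] at h2
      have h3 : ((MvPowerSeries.map (e.symm : ResidueField A →+* ResidueField A) :
          Rn n (ResidueField A) → Rn n (ResidueField A)) ∘ fun j => MvPowerSeries.map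
          (e : ResidueField A →+* ResidueField A) (g j)) = g := by
        funext j
        exact hmm (g j)
      rw [h3] at h2
      exact h2
  · obtain ⟨h1, s, hs1, hs2⟩ := hL
    refine ⟨fun x => ⟨e.symm x ^ p, h1 _, ?_⟩, s.map e.toEquiv.toEmbedding, ?_, ?_⟩
    · show e (e.symm x ^ p) = x ^ p
      rw [map_pow, e.apply_symm_apply]
    · intro b hb
      rw [Finset.mem_map] at hb
      obtain ⟨b', hb', rfl⟩ := hb
      exact ⟨b', hs1 b' hb', rfl⟩
    · rintro _ ⟨y, hy, rfl⟩
      obtain ⟨c, hc⟩ := hs2 y hy
      refine ⟨fun b => e (c (e.symm b)), ?_⟩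
      rw [Finset.sum_map]
      show e y = ∑ b ∈ s, e (c (e.symm (e b))) ^ p * e b
      conv_lhs => rw [hc]
      rw [map_sum]
      refine Finset.sum_congr rfl fun b _ => ?_
      rw [map_mul, map_pow, e.symm_apply_apply]
  · intro j α
    rw [coeff_map]
    exact ⟨_, hgL j α, rfl⟩

end Pool.Agent.T2h25.FD
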